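import Mathlib
import Pool.Agent.Y447.EP.WB

set_option autoImplicit false

/-!
# Groups `T` of index 4 with `-1 ∉ T` and all classes outside `±T` rigid: a valuation ring
-/

namespace Pool.Agent.V7H79.FP

open Pool.Agent.Y920.ETC (PCD Compat)
open Pool.Agent.Y920.EP (RP)

variable {F : Type} [Field F] {A : Type} [CommGroup A]

/-- the class of `-1` -/
def ep (φ : Fˣ →* A) : A := φ (-1)

/-- the class of `x` is not `1` and not that of `-1` -/
def Out (φ : Fˣ →* A) (x : Fˣ) : Prop := φ x ≠ 1 ∧ φ x ≠ ep φ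

/-- small elements -/
def Sl (φ : Fˣ →* A) (x : Fˣ) : Prop := Out φ x ∧ ∃ s : Fˣ, (s : F) = 1 + x ∧ φ s = 1

/-- the assumptions -/
structure St (φ : Fˣ →* A) : Prop where
  ne : ep φ ≠ 1
  sq : ∀ a : A, a * a = 1
  two : ∀ x y : Fˣ, Out φ x → Out φ y → φ x * φ y = 1 ∨ φ x * φ y = ep φ
  rigid : ∀ x s : Fˣ, (s : F) = 1 + x → Out φ x → φ s = 1 ∨ φ s = φ x

section

variable {φ : Fˣ →* A}

lemma ph_neg (x : Fˣ) : φ (-x) = ep φ * φ x := by rw [ep, ← map_mul, neg_one_mul]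

lemma St.ee (h : St φ) : ep φ * ep φ = 1 := h.sq _

lemma St.inv (h : St φ) (x : Fˣ) : φ x⁻¹ = φ x := by
  rw [map_inv]
  exact inv_eq_of_mul_eq_one_right (h.sq _)

lemma St.eq_mul (h : St φ) {a b c : A} (e : a * b = c) : b = a * c := by
  rw [← e, ← mul_assoc, h.sq, one_mul]

lemma neg_eq_one (h : St φ) (x : Fˣ) : φ x = ep φ ↔ φ (-x) = 1 := by
  rw [ph_neg]
  constructor
  · intro e
    rw [e, h.ee]
  · intro e
    rw [h.eq_mul e, mul_one]

lemma neg_one_out {x : Fˣ} : Out φ x ↔ φ x ≠ 1 ∧ ¬ φ x = ep φ := Iff.rfl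

lemma out_neg (h : St φ) {x : Fˣ} (hx : Out φ x) : Out φ (-x) := by
  refine ⟨fun e => hx.2 ?_, fun e => hx.1 ?_⟩
  · rw [ph_neg] at e
    rw [h.eq_mul e, mul_one]
  · rw [ph_neg] at e
    rw [h.eq_mul e, h.ee]

lemma out_inv (h : St φ) {x : Fˣ} (hx : Out φ x) : Out φ x⁻¹ := by
  rw [Out, h.inv]
  exact hx

lemma out_congr {x y : Fˣ} (hx : Out φ x) (e : φ y = φ x) : Out φ y := by
  rw [Out, e]
  exact hx

/-- sums of `1` and `x` -/
lemma sum1 (h : St φ) {x : Fˣ} (hx : Out φ x) {s : Fˣ} (hs : (s : F) = 1 + x) :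
    (φ s = 1 ∧ Sl φ x) ∨ (φ s = φ x ∧ Sl φ x⁻¹) := by
  rcases h.rigid x s hs hx with e | e
  · exact Or.inl ⟨e, hx, s, hs, e⟩
  · refine Or.inr ⟨e, out_inv h hx, s * x⁻¹, ?_, by rw [map_mul, h.inv, e, h.sq]⟩
    have h0 : (x : F) ≠ 0 := x.ne_zero
    rw [Units.val_mul, Units.val_inv_eq_inv_val, hs]
    field_simp
    ring

lemma ex1 (x : Fˣ) (hx : Out φ x) : ∃ s : Fˣ, (s : F) = 1 + x := by
  have h0 : (1 : F) + x ≠ 0 := by
    intro h0
    apply hx.2
    rw [ep]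
    congr 1
    apply Units.ext
    rw [Units.val_neg, Units.val_one]
    linear_combination h0
  exact ⟨Units.mk0 _ h0, rfl⟩

/-- sums -/
lemma sumg (h : St φ) {y z : Fˣ} (hyz : Out φ (z * y⁻¹)) {s : Fˣ} (hs : (s : F) = y + z) :
    (φ s = φ y ∧ Sl φ (z * y⁻¹)) ∨ (φ s = φ z ∧ Sl φ (y * z⁻¹)) := by
  have h0 : (y : F) ≠ 0 := y.ne_zero
  have hs' : ((s * y⁻¹ : Fˣ) : F) = 1 + ((z * y⁻¹ : Fˣ) : F) := by
    rw [Units.val_mul, Units.val_mul, Units.val_inv_eq_inv_val, hs]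
    field_simp
  rcases sum1 h hyz hs' with ⟨e, hsl⟩ | ⟨e, hsl⟩
  · left
    refine ⟨?_, hsl⟩
    rw [map_mul, h.inv, mul_comm] at e
    rw [h.eq_mul e, mul_one]
  · right
    refine ⟨?_, ?_⟩
    · rw [map_mul, map_mul] at e
      exact mul_right_cancel e
    · rwa [mul_inv, inv_inv, mul_comm] at hsl

lemma exg {y z : Fˣ} (hyz : Out φ (z * y⁻¹)) : ∃ s : Fˣ, (s : F) = y + z := by
  obtain ⟨s, hs⟩ := ex1 (z * y⁻¹) hyz
  have h0 : (y : F) ≠ 0 := y.ne_zero
  refine ⟨y * s, ?_⟩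
  rw [Units.val_mul, hs, Units.val_mul, Units.val_inv_eq_inv_val]
  field_simp

lemma excl {x : Fˣ} (h1 : Sl φ x) (h2 : Sl φ x⁻¹) : False := by
  obtain ⟨hx, s, hs, e⟩ := h1
  obtain ⟨-, t, ht, e'⟩ := h2
  have h0 : (x : F) ≠ 0 := x.ne_zero
  have h3 : x * t = s := by
    apply Units.ext
    rw [Units.val_mul, hs, ht, Units.val_inv_eq_inv_val]
    field_simp
    ring
  apply hx.1
  have h4 : φ x * φ t = φ s := by rw [← map_mul, h3]
  rw [e, e', mul_one] at h4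
  exact h4

/-- sums of two elements of one class -/
lemma tt (h : St φ) {y z s : Fˣ} (hyz : φ z = φ y) (hs : (s : F) = y + z) :
    φ s = φ y ∨ φ s = ep φ * φ y := by
  by_contra hc
  rw [not_or] at hc
  have ho : Out φ (-s * y⁻¹) := by
    constructor
    · intro e
      rw [map_mul, h.inv, mul_comm] at e
      have e1 := h.eq_mul e
      rw [mul_one, ph_neg] at e1
      exact hc.2 (h.eq_mul e1)
    · intro e
      rw [map_mul, h.inv, ph_neg, mul_assoc] at e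
      have e1 : φ s * φ y = 1 := by
        have := h.eq_mul e
        rwa [h.ee] at this
      rw [mul_comm] at e1
      exact hc.1 (by have e2 := h.eq_mul e1; rwa [mul_one] at e2)
  have hs' : ((-z : Fˣ) : F) = y + ((-s : Fˣ) : F) := by
    rw [Units.val_neg, Units.val_neg, hs]
    ring
  rcases sumg h ho hs' with ⟨e, -⟩ | ⟨e, -⟩
  · rw [ph_neg, hyz] at e
    exact h.ne (mul_right_cancel (e.trans (one_mul _).symm))
  · rw [ph_neg, ph_neg] at e
    exact hc.1 (by rw [← mul_left_cancel e, hyz])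

lemma Sl.get {x : Fˣ} (hx : Sl φ x) : ∃ s : Fˣ, (s : F) = 1 + x ∧ φ s = 1 := hx.2

/-- step (i) -/
lemma odd1 (h : St φ) {x t0 t1 : Fˣ} (hx : Sl φ x) (e0 : φ t0 = 1) (e1 : φ t1 = 1)
    (hsum : (1 : F) + t0 + t1 = 0) : Sl φ (-x * t1⁻¹) := by
  obtain ⟨u, hu, eu⟩ := hx.get
  have hne : (u : F) + t0 ≠ 0 := by
    intro h0
    have h1 : u = -t0 := by
      apply Units.ext
      rw [Units.val_neg]
      linear_combination h0
    rw [h1, ph_neg, e0, mul_one] at eu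
    exact h.ne eu
  obtain ⟨s, hs⟩ : ∃ s : Fˣ, (s : F) = u + t0 := ⟨Units.mk0 _ hne, rfl⟩
  have hso := tt h (e0.trans eu.symm) hs
  have hs' : ((-s : Fˣ) : F) = t1 + ((-x : Fˣ) : F) := by
    rw [Units.val_neg, Units.val_neg, hs, hu]
    linear_combination -hsum
  have ho : Out φ (-x * t1⁻¹) :=
    out_congr (out_neg h hx.1) (by rw [map_mul, h.inv, e1, mul_one])
  rcases sumg h ho hs' with ⟨-, h1⟩ | ⟨e, -⟩
  · exact h1
  · exfalso
    rw [ph_neg, ph_neg] at e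
    have e2 := mul_left_cancel e
    rw [e2, eu, mul_one] at hso
    rcases hso with h1 | h1
    · exact hx.1.1 h1
    · exact hx.1.2 h1

/-- step (ii) -/
lemma odd2 (h : St φ) {x t0 t1 : Fˣ} (hx : Out φ x) (hodd : ¬ Sl φ (-x)) (e0 : φ t0 = 1)
    (e1 : φ t1 = 1) (hsum : (1 : F) + t0 + t1 = 0) {s : Fˣ} (hs : (s : F) = t1 + x) :
    φ s = φ x := by
  obtain ⟨w, hw⟩ := ex1 (-x) (out_neg h hx)
  have ew : φ w = φ (-x) := by
    rcases sum1 h (out_neg h hx) hw with ⟨-, h1⟩ | ⟨e, -⟩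
    · exact absurd h1 hodd
    · exact e
  have ho : Out φ (t0 * w⁻¹) :=
    out_congr (out_neg h hx) (by rw [map_mul, h.inv, e0, one_mul, ew])
  have hs' : ((-s : Fˣ) : F) = w + t0 := by
    rw [Units.val_neg, hs, hw, Units.val_neg]
    linear_combination -hsum
  rcases sumg h ho hs' with ⟨e, -⟩ | ⟨e, -⟩
  · rw [ew, ph_neg, ph_neg] at e
    exact mul_left_cancel e
  · exfalso
    rw [e0, ph_neg] at e
    have e2 := h.eq_mul e
    rw [mul_one] at e2
    have ho2 : Out φ (x * t1⁻¹) := out_congr hx (by rw [map_mul, h.inv, e1, mul_one])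
    rcases sumg h ho2 hs with ⟨e3, -⟩ | ⟨e3, -⟩
    · rw [e1, e2] at e3
      exact h.ne e3
    · rw [e2] at e3
      exact hx.2 e3.symm

/-- `-P = P` -/
theorem small_neg (h : St φ) {t0 t1 : Fˣ} (e0 : φ t0 = 1) (e1 : φ t1 = 1)
    (hsum : (1 : F) + t0 + t1 = 0) {x : Fˣ} (hx : Sl φ x) : Sl φ (-x) := by
  by_contra hodd
  have hsum' : (1 : F) + t1 + t0 = 0 := by linear_combination hsum
  obtain ⟨u, hu, eu⟩ := hx.get
  obtain ⟨v, hv⟩ := exg (φ := φ) (y := t0) (z := x)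
    (out_congr hx.1 (by rw [map_mul, h.inv, e0, mul_one]))
  have ev := odd2 h hx.1 hodd e1 e0 hsum' hv
  obtain ⟨w, hw⟩ := ex1 (-x) (out_neg h hx.1)
  have ew : φ w = φ (-x) := by
    rcases sum1 h (out_neg h hx.1) hw with ⟨-, h1⟩ | ⟨e, -⟩
    · exact absurd h1 hodd
    · exact e
  obtain ⟨r', hr', er'⟩ := (odd1 h hx e1 e0 hsum').get
  obtain ⟨r, hr, er⟩ : ∃ r : Fˣ, (r : F) = t0 - x ∧ φ r = 1 := by
    refine ⟨t0 * r', ?_, by rw [map_mul, e0, er', mul_one]⟩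
    have h0 : (t0 : F) ≠ 0 := t0.ne_zero
    rw [Units.val_mul, hr', Units.val_mul, Units.val_neg, Units.val_inv_eq_inv_val]
    field_simp
    ring
  have ho1 : Out φ (-v * u⁻¹) := out_congr (out_neg h hx.1) (by
    rw [map_mul, h.inv, eu, mul_one, ph_neg, ev, ph_neg])
  obtain ⟨d, hd⟩ := exg ho1
  have hd2 : (d : F) = 1 - t0 := by
    rw [hd, Units.val_neg, hu, hv]
    ring
  have hd3 : (d : F) = w + ((-r : Fˣ) : F) := by
    rw [hd2, Units.val_neg, hw, hr, Units.val_neg]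
    ring
  have ho2 : Out φ (-r * w⁻¹) := out_congr hx.1 (by
    rw [map_mul, h.inv, ew, ph_neg, ph_neg, er, mul_one, ← mul_assoc, h.ee, one_mul])
  have ed : φ d = φ (-x) := by
    rcases sumg h ho2 hd3 with ⟨e, -⟩ | ⟨e, -⟩
    · rw [e, ew]
    · exfalso
      rw [ph_neg, er, mul_one] at e
      rcases sumg h ho1 hd with ⟨e3, -⟩ | ⟨e3, -⟩
      · rw [eu, e] at e3
        exact h.ne e3
      · rw [ph_neg, ev, e] at e3
        have e4 := h.eq_mul e3.symm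
        rw [h.ee] at e4
        exact hx.1.1 e4
  obtain ⟨z, hz⟩ : ∃ z : Fˣ, z = -d := ⟨_, rfl⟩
  have ez : φ z = φ x := by
    rw [hz, ph_neg, ed, ph_neg, ← mul_assoc, h.ee, one_mul]
  have ho3 : Out φ (z * t1⁻¹) := out_congr hx.1 (by rw [map_mul, h.inv, e1, mul_one, ez])
  obtain ⟨m, hm⟩ := exg ho3
  have hm2 : (m : F) = -2 := by
    rw [hm, hz, Units.val_neg, hd2]
    linear_combination hsum
  have h2 : (2 : F) ≠ 0 := by
    intro h2
    apply m.ne_zero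
    rw [hm2, h2, neg_zero]
  obtain ⟨n, hn⟩ : ∃ n : Fˣ, (n : F) = ((1 : Fˣ) : F) + ((1 : Fˣ) : F) :=
    ⟨Units.mk0 2 h2, by rw [Units.val_mk0, Units.val_one]; norm_num⟩
  have hmn : m = -n := by
    apply Units.ext
    rw [Units.val_neg, hm2, hn, Units.val_one]
    norm_num
  have en := tt h rfl hn
  rw [map_one, mul_one] at en
  have em : φ m = 1 := by
    rcases sumg h ho3 hm with ⟨e, -⟩ | ⟨e, -⟩
    · rw [e, e1]
    · exfalso
      rw [hmn, ph_neg, ez] at e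
      rcases en with h3 | h3
      · rw [h3, mul_one] at e
        exact hx.1.2 e.symm
      · rw [h3, h.ee] at e
        exact hx.1.1 e.symm
  have h5 := odd1 h hx (t0 := m) (t1 := 1) em (map_one φ) (by
    rw [hm2, Units.val_one]; norm_num)
  rw [inv_one, mul_one] at h5
  exact hodd h5

end

/-- the assumptions with `-P = P` -/
structure St2 (φ : Fˣ →* A) : Prop where
  st : St φ
  neg : ∀ x : Fˣ, Sl φ x → Sl φ (-x)

section

variable {φ : Fˣ →* A}

/-- if `1 > e > y` then `1 - y` is in the trivial class -/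
lemma star (h : St2 φ) {e y : Fˣ} (he : Sl φ e) (_hy : φ y = 1) (hye : Sl φ (y * e⁻¹)) :
    ∃ s : Fˣ, (s : F) = 1 - y ∧ φ s = 1 := by
  obtain ⟨u, hu, eu⟩ := he.get
  obtain ⟨v, hv, ev⟩ := hye.get
  obtain ⟨u', hu', eu'⟩ := (h.neg _ he).get
  obtain ⟨v', hv', ev'⟩ := (h.neg _ hye).get
  have h0 : (e : F) ≠ 0 := e.ne_zero
  have ho1 : Out φ (-(e * v) * u⁻¹) := out_congr (out_neg h.st he.1) (by
    rw [map_mul, h.st.inv, eu, mul_one, ph_neg, map_mul, ev, mul_one, ph_neg])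
  have ho2 : Out φ (e * v' * u'⁻¹) := out_congr he.1 (by
    rw [map_mul, h.st.inv, eu', mul_one, map_mul, ev', mul_one])
  obtain ⟨s, hs⟩ := exg ho1
  have hs1 : (s : F) = 1 - y := by
    rw [hs, Units.val_neg, Units.val_mul, hu, hv, Units.val_mul, Units.val_inv_eq_inv_val]
    field_simp
    ring
  have hs2 : (s : F) = u' + ((e * v' : Fˣ) : F) := by
    rw [hs1, Units.val_mul, hu', hv', Units.val_neg, Units.val_neg, Units.val_mul,
      Units.val_inv_eq_inv_val]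
    field_simp
    ring
  refine ⟨s, hs1, ?_⟩
  rcases sumg h.st ho1 hs with ⟨e1, -⟩ | ⟨e1, -⟩
  · rw [e1, eu]
  · rcases sumg h.st ho2 hs2 with ⟨e2, -⟩ | ⟨e2, -⟩
    · rw [e2, eu']
    · exfalso
      rw [ph_neg, map_mul, ev, mul_one] at e1
      rw [map_mul, ev', mul_one, e1] at e2
      exact h.st.ne (mul_right_cancel (e2.trans (one_mul _).symm))

/-- no cycle `1 > e > y > f > 1` -/
lemma noloop (h : St2 φ) {e y f : Fˣ} (he : Sl φ e) (hy : φ y = 1) (h1 : Sl φ (y * e⁻¹))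
    (h2 : Sl φ (f * y⁻¹)) (h3 : Sl φ f⁻¹) : False := by
  obtain ⟨s, hs, es⟩ := star h he hy h1
  obtain ⟨s', hs', es'⟩ := star h h2 (y := y⁻¹) (by rw [h.st.inv, hy]) (by
    have : y⁻¹ * (f * y⁻¹)⁻¹ = f⁻¹ := by
      rw [mul_inv, inv_inv, mul_comm f⁻¹, inv_mul_cancel_left]
    rwa [this])
  have h0 : (y : F) ≠ 0 := y.ne_zero
  have h4 : y * s' = -s := by
    apply Units.ext
    rw [Units.val_mul, hs', Units.val_neg, hs, Units.val_inv_eq_inv_val]
    field_simp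
    ring
  have h5 : φ (y * s') = φ (-s) := by rw [h4]
  rw [map_mul, hy, es', ph_neg, es, mul_one, mul_one] at h5
  exact h.st.ne h5.symm

lemma sl_or (h : St φ) {x : Fˣ} (hx : Out φ x) : Sl φ x ∨ Sl φ x⁻¹ := by
  obtain ⟨s, hs⟩ := ex1 x hx
  rcases sum1 h hx hs with ⟨-, h1⟩ | ⟨-, h1⟩
  · exact Or.inl h1
  · exact Or.inr h1

/-- products of three small elements -/
lemma prod3 (h : St2 φ) {x y z : Fˣ} (hx : Sl φ x) (hy : Sl φ y) (hz : Sl φ z) :
    Sl φ (x * y * z) := by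
  have hq : Out φ (x * y * z) := by
    rcases h.st.two x y hx.1 hy.1 with e | e
    · exact out_congr hz.1 (by rw [map_mul, map_mul, e, one_mul])
    · exact out_congr (out_neg h.st hz.1) (by rw [map_mul, map_mul, e, ph_neg])
  rcases sl_or h.st hq with h1 | h1
  · exact h1
  exfalso
  obtain ⟨q, hq1, hq2⟩ : ∃ q : Fˣ, φ q = 1 ∧ (q = z * y ∨ q = -(z * y)) := by
    rcases h.st.two z y hz.1 hy.1 with e | e
    · exact ⟨z * y, by rw [map_mul, e], Or.inl rfl⟩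
    · exact ⟨-(z * y), by rw [ph_neg, map_mul, e, h.st.ee], Or.inr rfl⟩
  refine noloop h hz hq1 (f := x * y * z) ?_ ?_ h1
  · rcases hq2 with rfl | rfl
    · rwa [mul_comm z y, mul_inv_cancel_right]
    · rw [neg_mul, mul_comm z y, mul_inv_cancel_right]
      exact h.neg _ hy
  · have e3 : x * y * z * (z * y)⁻¹ = x := by
      rw [mul_assoc x y z, mul_comm y z, mul_inv_cancel_right]
    rcases hq2 with rfl | rfl
    · rwa [e3]
    · rw [inv_neg, mul_neg, e3]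
      exact h.neg _ hx

/-- `a (1 + x)` -/
lemma mul_one_add (h : St2 φ) {a x c : Fˣ} (ha : Sl φ a) (hx : Sl φ x) (hc : (c : F) = 1 + x) :
    Sl φ (a * c) := by
  have ec : φ c = 1 := by
    obtain ⟨s, hs, e⟩ := hx.get
    rwa [← Units.ext (hs.trans hc.symm)]
  have ho : Out φ (a * c) := out_congr ha.1 (by rw [map_mul, ec, mul_one])
  obtain ⟨b, hb⟩ := ex1 _ ho
  rcases sum1 h.st ho hb with ⟨-, h1⟩ | ⟨eb, -⟩
  · exact h1
  exfalso
  rw [map_mul, ec, mul_one] at eb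
  obtain ⟨u, hu, eu⟩ := ha.get
  have hub : (u : F) = b + ((-(a * x) : Fˣ) : F) := by
    rw [hu, hb, Units.val_neg, Units.val_mul, Units.val_mul, hc]
    ring
  have ho2 : Out φ (-(a * x) * b⁻¹) := by
    rcases h.st.two a x ha.1 hx.1 with e | e
    · exact out_congr (out_neg h.st ha.1) (by
        rw [map_mul, h.st.inv, eb, ph_neg, map_mul, e, mul_one, ph_neg])
    · exact out_congr ha.1 (by
        rw [map_mul, h.st.inv, eb, ph_neg, map_mul, e, h.st.ee, one_mul])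
  rcases sumg h.st ho2 hub with ⟨e, -⟩ | ⟨e, h5⟩
  · rw [eu, eb] at e
    exact ha.1.1 e.symm
  rw [eu] at e
  have hab : ((a * c : Fˣ) : F) = b + ((-1 : Fˣ) : F) := by
    rw [hb, Units.val_neg, Units.val_one]
    ring
  have ho3 : Out φ (-1 * b⁻¹) := out_congr (out_neg h.st ha.1) (by
    rw [map_mul, h.st.inv, eb, ph_neg, map_one, mul_one, ph_neg])
  rcases sumg h.st ho3 hab with ⟨-, h6⟩ | ⟨e6, -⟩
  · have h7 := h.neg _ h6
    rw [neg_one_mul, neg_neg] at h7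
    refine noloop h ha e.symm (f := b) ?_ h5 h7
    have : -(a * x) * a⁻¹ = -x := by
      rw [neg_mul, mul_comm a x, mul_inv_cancel_right]
    rw [this]
    exact h.neg _ hx
  · rw [map_mul, ec, mul_one] at e6
    exact ha.1.2 e6

lemma ne_mul (h : St2 φ) {x a b : Fˣ} (hx : Sl φ x) (ha : Sl φ a) (hb : Sl φ b) :
    (1 : F) + x ≠ a * b := by
  intro hab
  obtain ⟨u, hu, eu⟩ := hx.get
  have hu2 : a * b = u := by
    apply Units.ext
    rw [hu, hab, Units.val_mul]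
  obtain ⟨s, hs, es⟩ := star h ha (y := a * b) (by rw [hu2, eu]) (by
    rwa [mul_comm a b, mul_inv_cancel_right])
  have h1 : s = -x := by
    apply Units.ext
    rw [hs, hu2, hu, Units.val_neg]
    ring
  exact (out_neg h.st hx.1).1 (by rw [← h1, es])

end

/-- the valuation ring -/
theorem ring_of_st2 {T H : Subgroup Fˣ} (hle : T ≤ H)
    (hH : ∀ x : Fˣ, x ∈ H ↔ x ∈ T ∨ -x ∈ T) (h : St2 (A := Fˣ ⧸ T) (QuotientGroup.mk' T)) :
    ∃ O : ValuationSubring F, Compat T H O := by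
  have hφ : ∀ x : Fˣ, QuotientGroup.mk' T x = 1 ↔ x ∈ T := by
    intro x
    rw [QuotientGroup.mk'_apply, QuotientGroup.eq_one_iff]
  have hout : ∀ x : Fˣ, x ∉ H ↔ Out (A := Fˣ ⧸ T) (QuotientGroup.mk' T) x := by
    intro x
    rw [hH, not_or, neg_one_out, neg_eq_one h.st, ← hφ, ← hφ]
  have hsm : ∀ x : Fˣ, Pool.Agent.Y920.ETC.Sm T H x ↔
      Sl (A := Fˣ ⧸ T) (QuotientGroup.mk' T) x := by
    intro x
    rw [Pool.Agent.Y920.ETC.Sm, Sl, hout]
    refine and_congr_right fun _ => ?_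
    constructor
    · rintro ⟨t, ht, e⟩
      exact ⟨t, e, (hφ t).2 ht⟩
    · rintro ⟨t, e, ht⟩
      exact ⟨t, (hφ t).1 ht, e⟩
  have hRP : RP T H := by
    refine ⟨hle, (hH _).2 (Or.inr (by rw [neg_neg]; exact one_mem T)), fun x hx => ?_⟩
    have ho := (hout x).1 hx
    obtain ⟨s, hs⟩ := ex1 x ho
    rcases sum1 h.st ho hs with ⟨e, -⟩ | ⟨e, -⟩
    · exact Or.inl ⟨s, (hφ s).1 e, hs⟩
    · refine Or.inr ⟨x⁻¹ * s, ?_, by rw [mul_inv_cancel_left, hs]⟩
      rw [← hφ, map_mul, h.st.inv, e, h.st.sq]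
  have hPCD : PCD T H := by
    refine ⟨fun x y z hx hy _ hz => ?_, fun a x c ha hx hc => ?_, fun x a b hx ha hb => ?_⟩
    · rw [hsm] at hx hy hz ⊢
      exact prod3 h hx hy hz
    · rw [hsm] at ha hx ⊢
      exact mul_one_add h ha hx hc
    · rw [hsm] at hx ha hb
      exact ne_mul h hx ha hb
  exact Pool.Agent.Y447.EP.t_WB' F T H hRP hPCD

end Pool.Agent.V7H79.FP
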