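import Mathlib
import Pool.Agent.V7H31.FP.AS
import Pool.Agent.V7H55.ET.Coarse
import Pool.Agent.V7H55.FP.Defs5
import Pool.Agent.V7H79.FP.Q4a

set_option autoImplicit false

/-!
# FREE PRODUCTS of helper55, piece Q4: no symbols modulo groups of index 4
-/

namespace Pool.Agent.V7H79.FP

open Pool.Agent.V7H55.ET (Adm Sym coarsen)
open Pool.Agent.V7H55.ET2 (IsCone)
open Pool.Agent.Y920.EP (pwG)

section

variable {F : Type} [Field F]

/-- a cone -/
lemma cone_of {P : Subgroup Fˣ} (hadd : ∀ x ∈ P, ∀ y ∈ P, ∃ z ∈ P, ((z : Fˣ) : F) = x + y)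
    (htot : ∀ x : Fˣ, x ∈ P ∨ -x ∈ P) (hneg : (-1 : Fˣ) ∉ P) : IsCone P := by
  obtain ⟨o, ho, h⟩ := Pool.Agent.V7H31.FP.order_of_cone
    (fun x : F => x = 0 ∨ ∃ u ∈ P, ((u : Fˣ) : F) = x) (Or.inl rfl)
    (Or.inr ⟨1, one_mem P, Units.val_one⟩) (by
      rintro x y (rfl | ⟨u, hu, rfl⟩) (rfl | ⟨v, hv, rfl⟩)
      · exact Or.inl (add_zero 0)
      · exact Or.inr ⟨v, hv, (zero_add _).symm⟩
      · exact Or.inr ⟨u, hu, (add_zero _).symm⟩
      · exact Or.inr (hadd u hu v hv)) (by
      rintro x y (rfl | ⟨u, hu, rfl⟩) (rfl | ⟨v, hv, rfl⟩)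
      · exact Or.inl (zero_mul 0)
      · exact Or.inl (zero_mul _)
      · exact Or.inl (mul_zero _)
      · exact Or.inr ⟨u * v, mul_mem hu hv, Units.val_mul u v⟩) (by
      intro x
      by_cases hx : x = 0
      · exact Or.inl (Or.inl hx)
      rcases htot (Units.mk0 x hx) with h1 | h1
      · exact Or.inl (Or.inr ⟨_, h1, rfl⟩)
      · exact Or.inr (Or.inr ⟨_, h1, rfl⟩)) (by
      rintro x (rfl | ⟨u, hu, rfl⟩) h2
      · rfl
      rcases h2 with h2 | ⟨v, hv, h2⟩
      · rwa [neg_eq_zero] at h2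
      exfalso
      apply hneg
      have h3 : v = -u := by
        apply Units.ext
        rw [h2, Units.val_neg]
      have h4 := mul_mem hv (inv_mem hu)
      rwa [h3, neg_mul, mul_inv_cancel] at h4)
  refine ⟨o, ho, fun x => ?_⟩
  rw [lt_iff_le_and_ne, h]
  constructor
  · intro hx
    exact ⟨Or.inr ⟨x, hx, rfl⟩, x.ne_zero.symm⟩
  · rintro ⟨h1 | ⟨u, hu, h1⟩, h2⟩
    · exact absurd h1 x.ne_zero
    · rwa [← Units.ext h1]

/-- a group of exponent 2 with 4 elements -/
lemma four {A : Type} [Group A] (h4 : Nat.card A = 4) (sq : ∀ x : A, x * x = 1) {e a : A}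
    (he : e ≠ 1) (ha : a ≠ 1) (hae : a ≠ e) (x : A) : x = 1 ∨ x = e ∨ x = a ∨ x = e * a := by
  classical
  have hfin : Finite A := Nat.finite_of_card_ne_zero (by omega)
  have : Fintype A := Fintype.ofFinite A
  by_contra hc
  rw [not_or, not_or, not_or] at hc
  obtain ⟨h1, h2, h3, h5⟩ := hc
  have h6 : e * a ≠ 1 := by
    intro h
    apply hae
    have := sq e
    rw [← h] at this
    exact (mul_left_cancel this).symm
  have h7 : e * a ≠ e := fun h => ha (by rwa [mul_eq_left] at h)
  have h8 : e * a ≠ a := fun h => he (by rwa [mul_eq_right] at h)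
  have hcard : ({1, e, a, e * a, x} : Finset A).card = 5 := by
    rw [Finset.card_insert_of_notMem, Finset.card_insert_of_notMem, Finset.card_insert_of_notMem,
      Finset.card_insert_of_notMem, Finset.card_singleton]
    · rw [Finset.mem_singleton]; exact fun h => h5 h.symm
    · rw [Finset.mem_insert, Finset.mem_singleton, not_or]
      exact ⟨fun h => h8 h.symm, fun h => h3 h.symm⟩
    · rw [Finset.mem_insert, Finset.mem_insert, Finset.mem_singleton, not_or, not_or]
      exact ⟨fun h => hae h.symm, fun h => h7 h.symm, fun h => h2 h.symm⟩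
    · rw [Finset.mem_insert, Finset.mem_insert, Finset.mem_insert, Finset.mem_singleton, not_or,
        not_or, not_or]
      exact ⟨fun h => he h.symm, fun h => ha h.symm, fun h => h6 h.symm, fun h => h1 h.symm⟩
  have h9 := Finset.card_le_univ ({1, e, a, e * a, x} : Finset A)
  rw [hcard, ← Nat.card_eq_fintype_card, h4] at h9
  omega

end

/-- the data: a map with four classes, and a symbol -/
structure Dat {F : Type} [Field F] {A : Type} [CommGroup A] (φ : Fˣ →* A)
    (c : Fˣ → Fˣ → ZMod 2) : Prop where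
  surj : Function.Surjective φ
  sq : ∀ a : A, a * a = 1
  card : Nat.card A = 4
  ne : ep φ ≠ 1
  c1 : ∀ a b x : Fˣ, c (a * b) x = c a x + c b x
  c2 : ∀ x a b : Fˣ, c x (a * b) = c x a + c x b
  st : ∀ x y : Fˣ, (x : F) + y = 1 → c x y = 0
  van : ∀ x : Fˣ, φ x = 1 → ∀ y, c x y = 0

section

variable {F : Type} [Field F] {A : Type} [CommGroup A] {φ : Fˣ →* A} {c : Fˣ → Fˣ → ZMod 2}

lemma z2 (a : ZMod 2) : a = 0 ∨ a = 1 := by
  revert a
  decide

lemma z2_add (a : ZMod 2) : a + a = 0 := by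
  revert a
  decide

lemma Dat.neg (h : Dat φ c) (x : Fˣ) : c x (-x) = 0 := by
  by_cases hx : x = 1
  · rw [hx]
    exact h.van 1 (map_one φ) _
  have h0 : (x : F) ≠ 0 := x.ne_zero
  have hx' : (1 : F) - x ≠ 0 := by
    intro h1
    apply hx
    apply Units.ext
    rw [Units.val_one]
    linear_combination -h1
  obtain ⟨u, hu⟩ : ∃ u : Fˣ, (u : F) = 1 - x := ⟨Units.mk0 _ hx', rfl⟩
  obtain ⟨v, hv⟩ : ∃ v : Fˣ, v = (-x)⁻¹ * u := ⟨_, rfl⟩
  have h1 : c x u = 0 := h.st x u (by rw [hu]; ring)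
  have h2 : c x⁻¹ v = 0 := h.st x⁻¹ v (by
    rw [hv, Units.val_mul, Units.val_inv_eq_inv_val, Units.val_inv_eq_inv_val, Units.val_neg, hu]
    field_simp
    ring)
  have h3 : c x v = 0 := by
    have h4 := h.c1 x x⁻¹ v
    rw [mul_inv_cancel, h.van 1 (map_one φ), h2, add_zero] at h4
    exact h4.symm
  have h4 := h.c2 x (-x) v
  rw [hv, mul_inv_cancel_left, ← hv, h1, h3, add_zero] at h4
  exact h4.symm

lemma Dat.symm (h : Dat φ c) (x y : Fˣ) : c x y = c y x := by
  have h1 := h.neg (x * y)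
  rw [h.c1, show -(x * y) = -x * y by rw [neg_mul], h.c2, h.neg, zero_add,
    show -x * y = -y * x by rw [neg_mul, neg_mul, mul_comm], h.c2, h.neg, zero_add] at h1
  have h2 := z2_add (c y x)
  linear_combination h1 - h2

lemma Dat.self (h : Dat φ c) (x : Fˣ) : c x x = c x (-1) := by
  have h1 := h.neg x
  rw [show -x = -1 * x by rw [neg_one_mul], h.c2] at h1
  have h2 := z2_add (c x (-1))
  linear_combination h1 - h2

lemma Dat.congr (h : Dat φ c) {x x' : Fˣ} (e : φ x = φ x') (y : Fˣ) : c x y = c x' y := by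
  have h1 : x = x' * (x'⁻¹ * x) := by rw [mul_inv_cancel_left]
  have h2 : φ (x'⁻¹ * x) = 1 := by rw [map_mul, map_inv, e, inv_mul_cancel]
  rw [h1, h.c1, h.van _ h2, add_zero]

lemma Dat.congr' (h : Dat φ c) {x x' : Fˣ} (e : φ x = φ x') (y : Fˣ) : c y x = c y x' := by
  rw [h.symm, h.congr e, h.symm]

lemma Dat.four (h : Dat φ c) {a : Fˣ} (ha : Out φ a) (x : Fˣ) :
    φ x = 1 ∨ φ x = ep φ ∨ φ x = φ a ∨ φ x = φ (-a) := by
  rw [ph_neg]
  exact Pool.Agent.V7H79.FP.four h.card h.sq h.ne ha.1 ha.2 (φ x)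

lemma Dat.ex (h : Dat φ c) : ∃ a : Fˣ, Out φ a := by
  classical
  by_contra hc
  push Not at hc
  have hfin : Finite A := Nat.finite_of_card_ne_zero (by rw [h.card]; omega)
  have : Fintype A := Fintype.ofFinite A
  have h1 : (Finset.univ : Finset A) ⊆ {1, ep φ} := by
    intro b _
    obtain ⟨x, rfl⟩ := h.surj b
    rw [Finset.mem_insert, Finset.mem_singleton]
    by_contra h2
    rw [not_or] at h2
    exact hc x h2
  have h2 := Finset.card_le_card h1
  have h3 : ({1, ep φ} : Finset A).card ≤ 2 := Finset.card_le_two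
  rw [Finset.card_univ, ← Nat.card_eq_fintype_card, h.card] at h2
  omega

lemma Dat.out_neg (h : Dat φ c) {x : Fˣ} (hx : Out φ x) : Out φ (-x) := by
  refine ⟨fun e => hx.2 ?_, fun e => hx.1 ?_⟩
  · rw [ph_neg] at e
    have h1 := h.sq (ep φ)
    rw [← e] at h1
    exact (mul_left_cancel h1).symm
  · rw [ph_neg, mul_eq_left] at e
    exact e

/-- additive functions -/
lemma Dat.zero (h : Dat φ c) {a : Fˣ} (ha : Out φ a) {f : Fˣ → ZMod 2}
    (hf : ∀ x y, f (x * y) = f x + f y) (hv : ∀ x, φ x = 1 → f x = 0) (h1 : f (-1) = 0)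
    (h2 : f a = 0) (x : Fˣ) : f x = 0 := by
  have hc : ∀ {y y' : Fˣ}, φ y = φ y' → f y = f y' := by
    intro y y' e
    have h3 : y = y' * (y'⁻¹ * y) := by rw [mul_inv_cancel_left]
    have h4 : φ (y'⁻¹ * y) = 1 := by rw [map_mul, map_inv, e, inv_mul_cancel]
    rw [h3, hf, hv _ h4, add_zero]
  rcases h.four ha x with e | e | e | e
  · exact hv x e
  · rw [hc (y' := -1) e, h1]
  · rw [hc e, h2]
  · rw [hc e, show -a = -1 * a by rw [neg_one_mul], hf, h1, h2, add_zero]

/-- degenerate symbols give orderings -/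
theorem Dat.deg (h : Dat φ c) {a : Fˣ} (ha : Out φ a) (h1 : c (-1) (-1) = 1)
    (h2 : c (-1) a = 0) : ∃ P : Subgroup Fˣ, IsCone P ∧ ∀ x, φ x = 1 → x ∈ P := by
  obtain ⟨P, hP⟩ : ∃ P : Subgroup Fˣ, ∀ x, x ∈ P ↔ c x (-1) = 0 := by
    refine ⟨{ carrier := {x | c x (-1) = 0}, mul_mem' := ?_, one_mem' := ?_, inv_mem' := ?_ },
      fun x => Iff.rfl⟩
    · intro x y hx hy
      have hx' : c x (-1) = 0 := hx
      have hy' : c y (-1) = 0 := hy
      show c (x * y) (-1) = 0
      rw [h.c1, hx', hy', add_zero]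
    · exact h.van 1 (map_one φ) _
    · intro x hx
      have hx' : c x (-1) = 0 := hx
      show c x⁻¹ (-1) = 0
      have h3 := h.c1 x x⁻¹ (-1)
      rw [mul_inv_cancel, h.van 1 (map_one φ), hx', zero_add] at h3
      exact h3.symm
  have hneg : (-1 : Fˣ) ∉ P := by
    rw [hP, h1]
    exact one_ne_zero
  have haa : c a a = 0 := by rw [h.self, h.symm, h2]
  have hca : ∀ s, c s a = 0 := fun s => by
    rw [h.symm]
    exact h.zero ha (f := c a) (fun x y => h.c2 a x y) (fun x hx => by
      rw [h.symm]; exact h.van x hx a) (by rw [h.symm]; exact h2) haa s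
  refine ⟨P, cone_of ?_ ?_ hneg, fun x hx => (hP x).2 (h.van x hx _)⟩
  · intro x hx y hy
    have hne : (x : F) + y ≠ 0 := by
      intro h0
      have h3 : y = -x := by
        apply Units.ext
        rw [Units.val_neg]
        linear_combination h0
      apply hneg
      have h4 := mul_mem hy (inv_mem hx)
      rwa [h3, neg_mul, mul_inv_cancel] at h4
    obtain ⟨s, hs⟩ : ∃ s : Fˣ, (s : F) = x + y := ⟨Units.mk0 _ hne, rfl⟩
    refine ⟨s, ?_, hs⟩
    obtain ⟨t, ht⟩ : ∃ t : Fˣ, t = y * x⁻¹ := ⟨_, rfl⟩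
    have htP : t ∈ P := by rw [ht]; exact mul_mem hy (inv_mem hx)
    have h0 : (x : F) ≠ 0 := x.ne_zero
    have h3 : c (s * x⁻¹) (-t) = 0 := h.st _ _ (by
      rw [Units.val_mul, Units.val_neg, ht, Units.val_mul, Units.val_inv_eq_inv_val, hs]
      field_simp
      ring)
    rw [show -t = -1 * t by rw [neg_one_mul], h.c2] at h3
    have h4 : c (s * x⁻¹) t = 0 := by
      have h5 := (hP t).1 htP
      rcases h.four ha t with e | e | e | e
      · rw [h.symm]; exact h.van t e _
      · rw [h.congr (x' := -1) e, h1] at h5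
        exact absurd h5 one_ne_zero
      · rw [h.congr' e]
        exact hca _
      · rw [h.congr e, show -a = -1 * a by rw [neg_one_mul], h.c1, h1, h.symm a, h2, add_zero] at h5
        exact absurd h5 one_ne_zero
    rw [h4, add_zero, ← hP] at h3
    have h6 := mul_mem h3 hx
    rwa [inv_mul_cancel_right] at h6
  · intro x
    rw [hP, hP, show -x = -1 * x by rw [neg_one_mul], h.c1, h1]
    rcases z2 (c x (-1)) with e | e
    · exact Or.inl e
    · right
      rw [e]
      decide

/-- nondegenerate symbols: all classes outside `±T` are rigid -/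
theorem Dat.nondeg (h : Dat φ c) {a : Fˣ} (ha : Out φ a) (h1 : c (-1) (-1) = 0)
    (h2 : c (-1) a = 1) : St φ := by
  have hb : ∀ y, Out φ y → c (-1) y = 1 := by
    intro y hy
    rcases h.four ha y with e | e | e | e
    · exact absurd e hy.1
    · exact absurd e hy.2
    · rw [h.congr' e, h2]
    · rw [h.congr' e, show -a = -1 * a by rw [neg_one_mul], h.c2, h1, h2, zero_add]
  refine ⟨h.ne, h.sq, fun x y hx hy => ?_, fun x s hs hx => ?_⟩
  · rcases h.four hx y with e | e | e | e
    · exact absurd e hy.1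
    · exact absurd e hy.2
    · left; rw [e, h.sq]
    · right; rw [e, ph_neg, mul_comm, mul_assoc, h.sq, mul_one]
  · have h3 : c s (-x) = 0 := h.st _ _ (by rw [hs, Units.val_neg]; ring)
    rcases h.four hx s with e | e | e | e
    · exact Or.inl e
    · exfalso
      rw [h.congr (x' := -1) e, hb _ (h.out_neg hx)] at h3
      exact one_ne_zero h3
    · exact Or.inr e
    · exfalso
      rw [h.congr e, h.self, h.symm, hb _ (h.out_neg hx)] at h3
      exact one_ne_zero h3

/-- three elements of the trivial class with sum `0`, or an ordering -/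
theorem Dat.three (h : Dat φ c) (hS : St φ) :
    (∃ t0 t1 : Fˣ, φ t0 = 1 ∧ φ t1 = 1 ∧ (1 : F) + t0 + t1 = 0) ∨
      ∃ P : Subgroup Fˣ, IsCone P ∧ ∀ x, φ x = 1 → x ∈ P := by
  by_cases hex : ∃ t s : Fˣ, φ t = 1 ∧ (s : F) = 1 + t ∧ φ s ≠ 1
  · left
    obtain ⟨t, s, ht, hs, hs1⟩ := hex
    have h1 := tt hS (y := 1) (z := t) (s := s) (by rw [ht, map_one]) (by rw [hs, Units.val_one])
    rw [map_one, mul_one] at h1
    refine ⟨t, -s, ht, (neg_eq_one hS s).1 (h1.resolve_left hs1), ?_⟩
    rw [Units.val_neg, hs]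
    ring
  · right
    push Not at hex
    obtain ⟨a, ha⟩ := h.ex
    obtain ⟨P, hP⟩ : ∃ P : Subgroup Fˣ, ∀ x, x ∈ P ↔ φ x = 1 ∨ φ x = φ a := by
      refine ⟨{ carrier := {x | φ x = 1 ∨ φ x = φ a}, mul_mem' := ?_, one_mem' := ?_,
                inv_mem' := ?_ }, fun x => Iff.rfl⟩
      · rintro x y (hx | hx) (hy | hy)
        · left; rw [map_mul, hx, hy, one_mul]
        · right; rw [map_mul, hx, hy, one_mul]
        · right; rw [map_mul, hx, hy, mul_one]
        · left; rw [map_mul, hx, hy, h.sq]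
      · left; exact map_one φ
      · rintro x (hx | hx)
        · left; rw [hS.inv, hx]
        · right; rw [hS.inv, hx]
    have hneg : (-1 : Fˣ) ∉ P := by
      rw [hP, not_or]
      exact ⟨h.ne, fun e => ha.2 e.symm⟩
    refine ⟨P, cone_of ?_ ?_ hneg, fun x hx => (hP x).2 (Or.inl hx)⟩
    · intro x hx y hy
      have hne : (x : F) + y ≠ 0 := by
        intro h0
        have h3 : y = -x := by
          apply Units.ext
          rw [Units.val_neg]
          linear_combination h0
        apply hneg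
        have h4 := mul_mem hy (inv_mem hx)
        rwa [h3, neg_mul, mul_inv_cancel] at h4
      obtain ⟨s, hs⟩ : ∃ s : Fˣ, (s : F) = x + y := ⟨Units.mk0 _ hne, rfl⟩
      refine ⟨s, ?_, hs⟩
      have h0 : (x : F) ≠ 0 := x.ne_zero
      have hs' : ((s * x⁻¹ : Fˣ) : F) = 1 + ((y * x⁻¹ : Fˣ) : F) := by
        rw [Units.val_mul, Units.val_mul, Units.val_inv_eq_inv_val, hs]
        field_simp
      have h5 : s * x⁻¹ ∈ P := by
        rcases (hP _).1 (mul_mem hy (inv_mem hx)) with e | e
        · exact (hP _).2 (Or.inl (hex _ _ e hs'))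
        · rcases hS.rigid _ _ hs' (out_congr ha e) with e' | e'
          · exact (hP _).2 (Or.inl e')
          · exact (hP _).2 (Or.inr (e'.trans e))
      have h6 := mul_mem h5 hx
      rwa [inv_mul_cancel_right] at h6
    · intro x
      rw [hP, hP]
      rcases h.four ha x with e | e | e | e
      · exact Or.inl (Or.inl e)
      · right; left
        exact (neg_eq_one hS x).1 e
      · exact Or.inl (Or.inr e)
      · right; right
        rw [ph_neg, e, ph_neg, ← mul_assoc, h.sq, one_mul]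

/-- a symbol is zero, or there is an ordering, or all classes are rigid and `-P = P` -/
theorem Dat.main (h : Dat φ c) : (∀ x y, c x y = 0) ∨
    (∃ P : Subgroup Fˣ, IsCone P ∧ ∀ x, φ x = 1 → x ∈ P) ∨ St2 φ := by
  obtain ⟨a, ha⟩ := h.ex
  rcases z2 (c (-1) (-1)) with h1 | h1
  · rcases z2 (c (-1) a) with h2 | h2
    · left
      have h3 : ∀ y, c (-1) y = 0 := h.zero ha (f := c (-1)) (fun x y => h.c2 _ x y)
        (fun x hx => by rw [h.symm]; exact h.van x hx _) h1 h2
      have h4 : ∀ y, c a y = 0 := h.zero ha (f := c a) (fun x y => h.c2 _ x y)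
        (fun x hx => by rw [h.symm]; exact h.van x hx _) (by rw [h.symm]; exact h2)
        (by rw [h.self, h.symm]; exact h2)
      intro x y
      exact h.zero ha (f := fun x => c x y) (fun x x' => h.c1 x x' y)
        (fun x hx => h.van x hx y) (h3 y) (h4 y) x
    · right
      have hS := h.nondeg ha h1 h2
      rcases h.three hS with ⟨t0, t1, e0, e1, hsum⟩ | hP
      · exact Or.inr ⟨hS, fun x hx => small_neg hS e0 e1 hsum hx⟩
      · exact Or.inl hP
  · right; left
    rcases z2 (c (-1) a) with h2 | h2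
    · exact h.deg ha h1 h2
    · refine h.deg (h.out_neg ha) h1 ?_
      rw [show -a = -1 * a by rw [neg_one_mul], h.c2, h1, h2]
      decide

end

theorem t_Q4 : Pool.Agent.V7H55.FP.S_Q4 := by
  intro F _ h2 hfin T hT hAdm hcone hidx hneg e he
  have hφ : ∀ x : Fˣ, QuotientGroup.mk' T x = 1 ↔ x ∈ T := by
    intro x
    rw [QuotientGroup.mk'_apply, QuotientGroup.eq_one_iff]
  have hD : Dat (A := Fˣ ⧸ T) (QuotientGroup.mk' T) e := by
    refine ⟨QuotientGroup.mk'_surjective T, ?_, ?_, ?_, he.1, he.2.1, he.2.2.1,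
      fun x hx y => he.2.2.2 x ((hφ x).1 hx) y⟩
    · intro b
      obtain ⟨x, rfl⟩ := QuotientGroup.mk'_surjective T b
      rw [← map_mul, hφ]
      exact hT ⟨x, pow_two x⟩
    · exact hidx
    · intro h
      exact hneg ((hφ _).1 h)
  rcases hD.main with h | ⟨P, hP, hP2⟩ | h
  · funext x y
    exact h x y
  · exact absurd (fun x hx => hP2 x ((hφ x).2 hx)) (hcone P hP)
  · exfalso
    obtain ⟨H, hH⟩ : ∃ H : Subgroup Fˣ, ∀ x, x ∈ H ↔ x ∈ T ∨ -x ∈ T := by
      refine ⟨{ carrier := {x | x ∈ T ∨ -x ∈ T}, mul_mem' := ?_, one_mem' := ?_,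
                inv_mem' := ?_ }, fun x => Iff.rfl⟩
      · rintro x y (hx | hx) (hy | hy)
        · exact Or.inl (mul_mem hx hy)
        · right
          have := mul_mem hx hy
          rwa [mul_neg] at this
        · right
          have := mul_mem hx hy
          rwa [neg_mul] at this
        · left
          have := mul_mem hx hy
          rwa [neg_mul_neg] at this
      · exact Or.inl (one_mem T)
      · rintro x (hx | hx)
        · exact Or.inl (inv_mem hx)
        · right
          have := inv_mem hx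
          rwa [inv_neg] at this
    have hle : T ≤ H := fun x hx => (hH x).2 (Or.inl hx)
    obtain ⟨O, hO⟩ := ring_of_st2 hle hH h
    have hHtop : H ≠ ⊤ := by
      intro hc
      obtain ⟨a, ha⟩ := hD.ex
      have h3 : a ∈ H := by rw [hc]; exact Subgroup.mem_top a
      rcases (hH a).1 h3 with h4 | h4
      · exact ha.1 ((hφ a).2 h4)
      · exact (hD.out_neg ha).1 ((hφ _).2 h4)
    have hne : O.unitGroup ⊔ T ≠ ⊤ := by
      intro hc
      apply hHtop
      rw [eq_top_iff, ← hc]
      refine sup_le (fun u hu => hO.units u ?_ ?_) hle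
      · rw [← ValuationSubring.valuation_le_one_iff]
        exact le_of_eq hu
      · rw [← ValuationSubring.valuation_le_one_iff]
        exact le_of_eq (inv_mem hu : u⁻¹ ∈ O.unitGroup)
    obtain ⟨O', h5, -, h6⟩ := coarsen Nat.prime_two (by exact_mod_cast h2) hfin hT
      (by rw [hidx]; decide) O hO.one hne
    exact hAdm O' ⟨h5, h6⟩

end Pool.Agent.V7H79.FP
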